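import Mathlib
import Pool.Agent.L5helper45.HW.Orb

/-!
# Swapping blocks in the words of an arbitrary finite set: orbits of size `2 ^ q`

Written by helper79 for helper14; this is `Pool.Agent.L5helper45.HW.swaps` for an arbitrary finite
set of words which is closed under exchanging `X` and `Y` at the given places.
-/

set_option autoImplicit false

namespace Pool.Agent.L5helper14.AW

open Pool.Agent.L5helper45.HW (Hit)
open Pool.Agent.L5helper45.HW.Orb

namespace OrbG

section
variable {X Y : List ℕ} {a : ℕ → ℕ} {q n : ℕ} {w : List ℕ}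

/-- the shape of the intermediate words: prefix, block, suffix -/
lemma F_shape (hl : X.length = Y.length) (h0 : 0 < X.length)
    (ha : ∀ i, i + 1 < q → a i + n * X.length ≤ a (i + 1))
    (h : ∀ i < q, ∃ t < n, Hit X Y w (a i + t * X.length)) {β : ℕ → List ℕ}
    (hβ : ∀ i, β i = X ∨ β i = Y) {m : ℕ} (hm : m < q) :
    ∃ u v : List ℕ, u.length = a m + fh X Y a w m * X.length ∧
      F X.length (ps X Y a w) β w m = u ++ (w.drop (ps X Y a w m)).take X.length ++ v ∧
      F X.length (ps X Y a w) β w (m + 1) = u ++ β m ++ v := by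
  have hβ' : ∀ i < q, (β i).length = X.length := by
    intro i _
    rcases hβ i with h | h
    · rw [h]
    · rw [h, hl]
  have hwl : ∀ i < q, ps X Y a w i + X.length ≤ w.length := fun i hi => hit_len hl h0 (fh_hit (h i hi)).2
  have hn : ∀ i < q, fh X Y a w i < n := fun i hi => (fh_hit (h i hi)).1
  have hd := ps_disj (w := w) ha hn
  have hlen := F_length hwl hβ' m hm.le
  have hb : ((F X.length (ps X Y a w) β w m).drop (ps X Y a w m)).take X.length =
      (w.drop (ps X Y a w m)).take X.length :=
    F_blk_out hwl hβ' (by omega) (fun i hi => Or.inl (hd i m hi (by omega)))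
  have hsp := split3 (l := X.length) (j := ps X Y a w m) (F X.length (ps X Y a w) β w m)
  rw [hb] at hsp
  refine ⟨(F X.length (ps X Y a w) β w m).take (ps X Y a w m),
    (F X.length (ps X Y a w) β w m).drop (ps X Y a w m + X.length), ?_, hsp.symm, rfl⟩
  rw [List.length_take, hlen]
  have := hwl m hm
  unfold ps at this ⊢
  omega

/-- the intermediate words stay in the set -/
lemma F_good (hl : X.length = Y.length) (h0 : 0 < X.length)
    (ha : ∀ i, i + 1 < q → a i + n * X.length ≤ a (i + 1)) {W : Finset (List ℕ)}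
    (hW : ∀ i < q, ∀ t < n, ∀ u v : List ℕ, u.length = a i + t * X.length →
      (u ++ X ++ v ∈ W ↔ u ++ Y ++ v ∈ W))
    (h : ∀ i < q, ∃ t < n, Hit X Y w (a i + t * X.length)) {β : ℕ → List ℕ}
    (hβ : ∀ i, β i = X ∨ β i = Y) (hw : w ∈ W) :
    ∀ m ≤ q, F X.length (ps X Y a w) β w m ∈ W
  | 0, _ => hw
  | m + 1, hm => by
    have ih := F_good hl h0 ha hW h hβ hw m (by omega)
    obtain ⟨u, v, hu, e1, e2⟩ := F_shape hl h0 ha h hβ (m := m) (by omega)
    have hn : fh X Y a w m < n := (fh_hit (h m (by omega))).1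
    have hb2 : (w.drop (ps X Y a w m)).take X.length = X ∨
        (w.drop (ps X Y a w m)).take X.length = Y := (fh_hit (h m (by omega))).2
    have H := hW m (by omega) (fh X Y a w m) hn u v hu
    rw [e1] at ih
    rw [e2]
    rcases hβ m with g | g <;> rcases hb2 with g' | g' <;> rw [g'] at ih <;> rw [g]
    · exact ih
    · exact H.2 ih
    · exact H.1 ih
    · exact ih

/-- one swap changes `L` by an amount between `lo` and `hi` -/
lemma F_step (hl : X.length = Y.length) (h0 : 0 < X.length)
    (ha : ∀ i, i + 1 < q → a i + n * X.length ≤ a (i + 1)) {W : Finset (List ℕ)}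
    (hW : ∀ i < q, ∀ t < n, ∀ u v : List ℕ, u.length = a i + t * X.length →
      (u ++ X ++ v ∈ W ↔ u ++ Y ++ v ∈ W))
    (L : List ℕ → ℝ) (lo hi : ℕ → ℝ)
    (hw : ∀ i < q, ∀ t < n, ∀ u v : List ℕ, u.length = a i + t * X.length → u ++ X ++ v ∈ W →
      lo i ≤ |L (u ++ X ++ v) - L (u ++ Y ++ v)| ∧ |L (u ++ X ++ v) - L (u ++ Y ++ v)| ≤ hi i)
    (h : ∀ i < q, ∃ t < n, Hit X Y w (a i + t * X.length)) {β : ℕ → List ℕ}
    (hβ : ∀ i, β i = X ∨ β i = Y) (hwW : w ∈ W) {m : ℕ} (hm : m < q) :
    |L (F X.length (ps X Y a w) β w (m + 1)) - L (F X.length (ps X Y a w) β w m)| ≤ hi m ∧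
    (β m ≠ (w.drop (ps X Y a w m)).take X.length →
      lo m ≤ |L (F X.length (ps X Y a w) β w (m + 1)) - L (F X.length (ps X Y a w) β w m)|) := by
  have g1 := F_good hl h0 ha hW h hβ hwW m hm.le
  obtain ⟨u, v, hu, e1, e2⟩ := F_shape hl h0 ha h hβ hm
  have hn : fh X Y a w m < n := (fh_hit (h m hm)).1
  have hb2 : (w.drop (ps X Y a w m)).take X.length = X ∨
      (w.drop (ps X Y a w m)).take X.length = Y := (fh_hit (h m hm)).2
  have hXW : u ++ X ++ v ∈ W := by
    rw [e1] at g1
    rcases hb2 with g' | g' <;> rw [g'] at g1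
    · exact g1
    · exact (hW m hm _ hn u v hu).2 g1
  have H := hw m hm (fh X Y a w m) hn u v hu hXW
  have hhi : 0 ≤ hi m := (abs_nonneg _).trans H.2
  rw [e1, e2]
  rcases hβ m with g | g <;> rcases hb2 with g' | g' <;> rw [g, g']
  · exact ⟨by simpa using hhi, fun h => absurd rfl h⟩
  · exact ⟨H.2, fun _ => H.1⟩
  · rw [abs_sub_comm] at H
    exact ⟨H.2, fun _ => H.1⟩
  · exact ⟨by simpa using hhi, fun h => absurd rfl h⟩

end

end OrbG

open Classical in
theorem swapsG (X Y : List ℕ) (hl : X.length = Y.length) (hXY : X ≠ Y) (W : Finset (List ℕ))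
    (q n : ℕ) (a : ℕ → ℕ) (ha : ∀ i, i + 1 < q → a i + n * X.length ≤ a (i + 1))
    (hW : ∀ i < q, ∀ t < n, ∀ u v : List ℕ, u.length = a i + t * X.length → (u ++ X ++ v ∈ W ↔ u ++ Y ++ v ∈ W))
    (L : List ℕ → ℝ) (lo hi : ℕ → ℝ)
    (hw : ∀ i < q, ∀ t < n, ∀ u v : List ℕ, u.length = a i + t * X.length → u ++ X ++ v ∈ W →
      lo i ≤ |L (u ++ X ++ v) - L (u ++ Y ++ v)| ∧ |L (u ++ X ++ v) - L (u ++ Y ++ v)| ≤ hi i)
    (ε : ℝ) (hε : ∀ i < q, ε + ∑ m ∈ Finset.Ico (i + 1) q, hi m < lo i) (y : ℝ) :
    ((W.filter fun w => (∀ i < q, ∃ t < n, Hit X Y w (a i + t * X.length)) ∧ y ≤ L w ∧ L w ≤ y + ε).card) * 2 ^ q ≤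
      W.card := by
  have h0 : 0 < X.length := by
    rcases Nat.eq_zero_or_pos X.length with h | h
    · exfalso
      apply hXY
      have hY0 : Y.length = 0 := by rw [← hl]; exact h
      rw [List.eq_nil_of_length_eq_zero h, List.eq_nil_of_length_eq_zero hY0]
    · exact h
  set A := W.filter fun w => (∀ i < q, ∃ t < n, Hit X Y w (a i + t * X.length)) ∧ y ≤ L w ∧ L w ≤ y + ε with hA
  have hAm : ∀ w ∈ A, w ∈ W ∧ (∀ i < q, ∃ t < n, Hit X Y w (a i + t * X.length)) ∧ y ≤ L w ∧ L w ≤ y + ε := by
    intro w hw
    rw [hA, Finset.mem_filter] at hw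
    exact hw
  set bt : Finset ℕ → ℕ → List ℕ := fun S i => if i ∈ S then X else Y with hbt
  have hbtXY : ∀ S i, bt S i = X ∨ bt S i = Y := by
    intro S i
    by_cases h : i ∈ S
    · left; simp [hbt, h]
    · right; simp [hbt, h]
  have hlen : ∀ β : ℕ → List ℕ, (∀ i, β i = X ∨ β i = Y) → ∀ i < q, (β i).length = X.length := by
    intro β hβ i _
    rcases hβ i with h | h
    · rw [h]
    · rw [h, hl]
  have hcard : (A ×ˢ (Finset.range q).powerset).card ≤ W.card := by
    apply Finset.card_le_card_of_injOn (fun x => F X.length (ps X Y a x.1) (bt x.2) x.1 q)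
    · rintro ⟨w, S⟩ hx
      rw [Finset.coe_product, Set.mem_prod] at hx
      obtain ⟨h1, h3, -, -⟩ := hAm w hx.1
      exact OrbG.F_good hl h0 ha hW h3 (hbtXY S) h1 q le_rfl
    · rintro ⟨w, S⟩ hx ⟨w', S'⟩ hx' hEq
      rw [Finset.coe_product, Set.mem_prod] at hx hx'
      simp only at hEq hx hx'
      obtain ⟨h1, h3, h4, h5⟩ := hAm w hx.1
      obtain ⟨h1', h3', h4', h5'⟩ := hAm w' hx'.1
      have hSq : S ⊆ Finset.range q := Finset.mem_powerset.1 hx.2
      have hSq' : S' ⊆ Finset.range q := Finset.mem_powerset.1 hx'.2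
      -- the positions agree
      have hfh : ∀ i < q, fh X Y a w i = fh X Y a w' i := by
        intro i hi
        rw [← (ps_F hl h0 ha h3 (hbtXY S) hi).2, ← (ps_F hl h0 ha h3' (hbtXY S') hi).2, hEq]
      have hps : ∀ i < q, ps X Y a w i = ps X Y a w' i := by
        intro i hi
        unfold ps
        rw [hfh i hi]
      have hwl : ∀ i < q, ps X Y a w i + X.length ≤ w.length :=
        fun i hi => hit_len hl h0 (fh_hit (h3 i hi)).2
      have hwl' : ∀ i < q, ps X Y a w' i + X.length ≤ w'.length :=
        fun i hi => hit_len hl h0 (fh_hit (h3' i hi)).2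
      have hd := ps_disj (w := w) ha (fun i hi => (fh_hit (h3 i hi)).1)
      have hd' := ps_disj (w := w') ha (fun i hi => (fh_hit (h3' i hi)).1)
      have hSS : ∀ i < q, bt S i = bt S' i := by
        intro i hi
        have e1 := F_blk hwl (hlen _ (hbtXY S)) hd le_rfl hi
        have e2 := F_blk hwl' (hlen _ (hbtXY S')) hd' le_rfl hi
        rw [← hEq, ← hps i hi, e1] at e2
        exact e2
      have hSeq : S = S' := by
        ext i
        by_cases hi : i < q
        · have := hSS i hi
          simp only [hbt] at this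
          by_cases m1 : i ∈ S <;> by_cases m2 : i ∈ S'
          · exact ⟨fun _ => m2, fun _ => m1⟩
          · rw [if_pos m1, if_neg m2] at this
            exact absurd this hXY
          · rw [if_neg m1, if_pos m2] at this
            exact absurd this.symm hXY
          · exact ⟨fun h => absurd h m1, fun h => absurd h m2⟩
        · exact ⟨fun h => absurd (Finset.mem_range.1 (hSq h)) hi, fun h => absurd (Finset.mem_range.1 (hSq' h)) hi⟩
      -- the blocks of `w'`
      set γ : ℕ → List ℕ := fun i => if i < q then (w'.drop (ps X Y a w' i)).take X.length else X with hγ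
      have hγXY : ∀ i, γ i = X ∨ γ i = Y := by
        intro i
        by_cases hi : i < q
        · simp only [hγ, if_pos hi]
          exact (fh_hit (h3' i hi)).2
        · left; simp only [hγ, if_neg hi]
      have hw' : F X.length (ps X Y a w) γ w q = w' := by
        have e1 : F X.length (ps X Y a w') γ w' q = w' :=
          F_self hwl' hd' le_rfl (hlen _ hγXY) (fun i hi => by simp only [hγ, if_pos hi])
        have e2 := F_F hwl' (hlen _ (hbtXY S')) (hlen _ hγXY) hd'
        have e3 := F_F hwl (hlen _ (hbtXY S)) (hlen _ hγXY) hd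
        rw [← e3, hEq]
        exact (F_congr hps (fun _ _ => rfl)).trans (e2.trans e1)
      have hww : w = w' := by
        by_contra hne
        have hex : ∃ i, i < q ∧ γ i ≠ (w.drop (ps X Y a w i)).take X.length := by
          by_contra hcon
          push Not at hcon
          apply hne
          rw [← hw']
          exact (F_self hwl hd le_rfl (hlen _ hγXY) hcon).symm
        obtain ⟨hiq, hine⟩ := Nat.find_spec hex
        have hmin : ∀ j < Nat.find hex, γ j = (w.drop (ps X Y a w j)).take X.length := by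
          intro j hj
          have := Nat.find_min hex hj
          push Not at this
          exact this (by omega)
        set i := Nat.find hex with hi'
        have s1 : F X.length (ps X Y a w) γ w i = w :=
          F_self hwl hd hiq.le (hlen _ hγXY) hmin
        have s2 := (OrbG.F_step hl h0 ha hW L lo hi hw h3 hγXY h1 hiq).2 hine
        rw [s1] at s2
        have s3 : ∀ j, i + 1 ≤ j → j ≤ q →
            |L (F X.length (ps X Y a w) γ w j) - L (F X.length (ps X Y a w) γ w (i + 1))| ≤
              ∑ m ∈ Finset.Ico (i + 1) j, hi m := by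
          intro j hj
          induction j, hj using Nat.le_induction with
          | base => intro _; simp
          | succ j hj ih =>
            intro hjq
            have s4 := (OrbG.F_step hl h0 ha hW L lo hi hw h3 hγXY h1 (m := j) (by omega)).1
            have s5 := ih (by omega)
            rw [Finset.sum_Ico_succ_top (by omega)]
            calc _ ≤ |L (F X.length (ps X Y a w) γ w (j + 1)) - L (F X.length (ps X Y a w) γ w j)| +
                  |L (F X.length (ps X Y a w) γ w j) - L (F X.length (ps X Y a w) γ w (i + 1))| :=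
                  abs_sub_le _ _ _
              _ ≤ _ := by linarith
        have s6 := s3 q hiq le_rfl
        rw [hw'] at s6
        have s7 := hε i hiq
        have s8 : |L w' - L w| ≤ ε := by rw [abs_le]; constructor <;> linarith
        have s9 : |L (F X.length (ps X Y a w) γ w (i + 1)) - L w| ≤
            |L (F X.length (ps X Y a w) γ w (i + 1)) - L w'| + |L w' - L w| := abs_sub_le _ _ _
        rw [abs_sub_comm] at s6
        linarith
      exact Prod.ext hww hSeq
  rw [Finset.card_product, Finset.card_powerset, Finset.card_range] at hcard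
  exact hcard

end Pool.Agent.L5helper14.AW
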